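import Mathlib
import Pool.Agent.H45.XR.Defs

set_option autoImplicit false

/-!
Project XR, module B4: abstract arcs.
-/

open MeasureTheory Set Filter Topology
open scoped Real ENNReal

namespace Pool.Agent.H45.XR

namespace ArcsAux

/-- A strictly monotone surjection of the integers is a translation. -/
theorem int_mono {g : ℤ → ℤ} (hg : StrictMono g) (hs : Function.Surjective g) (x : ℤ) :
    g x = g 0 + x := by
  have h1 : ∀ x, g (x + 1) = g x + 1 := by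
    intro x
    obtain ⟨y, hy⟩ := hs (g x + 1)
    have h2 : g x < g (x + 1) := hg (by omega)
    have h3 : x < y := by
      rw [← hg.lt_iff_lt]
      omega
    have h4 : g (x + 1) ≤ g y := hg.monotone (by omega)
    omega
  induction x using Int.induction_on with
  | zero => simp
  | succ n ih => rw [h1, ih]; ring
  | pred n ih =>
    have := h1 (-(n : ℤ) - 1)
    rw [sub_add_cancel, ih] at this
    linarith

/-- A strictly antitone surjection of the integers is a reflection. -/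
theorem int_anti {g : ℤ → ℤ} (hg : StrictAnti g) (hs : Function.Surjective g) (x : ℤ) :
    g x = g 0 - x := by
  have h := int_mono (g := fun x => - g x) (fun a b hab => neg_lt_neg (hg hab))
    (fun y => by
      obtain ⟨x, hx⟩ := hs (-y)
      exact ⟨x, by simp [hx]⟩) x
  linarith

/-- Separated sets are finite in bounded intervals. -/
theorem finite_of_sep {A : Set ℝ} {δ : ℝ} (hδ : 0 < δ)
    (h : ∀ a ∈ A, ∀ b ∈ A, a < b → a + δ ≤ b) (x y : ℝ) : (A ∩ Icc x y).Finite := by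
  apply Set.Finite.of_finite_image (f := fun a : ℝ => ⌊a / δ⌋)
  · apply (Set.finite_Icc ⌊x / δ⌋ ⌊y / δ⌋).subset
    rintro _ ⟨a, ⟨-, h1, h2⟩, rfl⟩
    exact ⟨Int.floor_le_floor (div_le_div_of_nonneg_right h1 hδ.le),
      Int.floor_le_floor (div_le_div_of_nonneg_right h2 hδ.le)⟩
  · have key : ∀ a ∈ A, ∀ b ∈ A, a < b → ⌊a / δ⌋ < ⌊b / δ⌋ := by
      intro a ha b hb hab
      have h1 := h a ha b hb hab
      have h2 : a / δ + 1 ≤ b / δ := by
        rw [← sub_nonneg]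
        have : b / δ - (a / δ + 1) = (b - (a + δ)) / δ := by
          field_simp
        rw [this]
        exact div_nonneg (by linarith) hδ.le
      have h3 := Int.floor_le_floor h2
      rw [Int.floor_add_one] at h3
      omega
    intro a ha b hb hab
    simp only at hab
    rcases lt_trichotomy a b with h1 | h1 | h1
    · have := key a ha.1 b hb.1 h1
      omega
    · exact h1
    · have := key b hb.1 a ha.1 h1
      omega

section

variable {E : Set ℝ} (hper : ∀ θ, θ ∈ E ↔ θ + 2 * π ∈ E)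

include hper in
theorem per_sub (θ : ℝ) : θ ∈ E ↔ θ - 2 * π ∈ E := by
  rw [hper (θ - 2 * π), sub_add_cancel]

include hper in
theorem exists_large {e : ℝ} (he : e ∈ E) (t : ℝ) : ∃ x ∈ E, t ≤ x := by
  have h1 : ∀ n : ℕ, e + n * (2 * π) ∈ E := by
    intro n
    induction n with
    | zero => simpa using he
    | succ n ih =>
      rw [hper] at ih
      convert ih using 1
      push_cast
      ring
  obtain ⟨n, hn⟩ := exists_nat_ge ((t - e) / (2 * π))
  refine ⟨_, h1 n, ?_⟩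
  rw [div_le_iff₀ Real.two_pi_pos] at hn
  linarith

include hper in
theorem exists_small {e : ℝ} (he : e ∈ E) (t : ℝ) : ∃ x ∈ E, x ≤ t := by
  have h1 : ∀ n : ℕ, e - n * (2 * π) ∈ E := by
    intro n
    induction n with
    | zero => simpa using he
    | succ n ih =>
      rw [per_sub hper] at ih
      convert ih using 1
      push_cast
      ring
  obtain ⟨n, hn⟩ := exists_nat_ge ((e - t) / (2 * π))
  refine ⟨_, h1 n, ?_⟩
  rw [div_le_iff₀ Real.two_pi_pos] at hn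
  linarith

include hper in
theorem exists_arc (hE : IsClosed E) (hne : E.Nonempty) (hne' : E ≠ univ) :
    ∃ a ∈ E, ∃ b ∈ E, a < b ∧ Ioo a b ∩ E = ∅ := by
  obtain ⟨t, ht⟩ := (ne_univ_iff_exists_notMem E).1 hne'
  obtain ⟨e, he⟩ := hne
  have hA : (E ∩ Iic t).Nonempty := by
    obtain ⟨x, hx, hxt⟩ := exists_small hper he t
    exact ⟨x, hx, hxt⟩
  have hB : (E ∩ Ici t).Nonempty := by
    obtain ⟨x, hx, hxt⟩ := exists_large hper he t
    exact ⟨x, hx, hxt⟩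
  have hbA : BddAbove (E ∩ Iic t) := ⟨t, fun x hx => hx.2⟩
  have hbB : BddBelow (E ∩ Ici t) := ⟨t, fun x hx => hx.2⟩
  have h1 := (hE.inter isClosed_Iic).csSup_mem hA hbA
  have h2 := (hE.inter isClosed_Ici).csInf_mem hB hbB
  have h3 : sSup (E ∩ Iic t) < t := lt_of_le_of_ne h1.2 (fun h => ht (h ▸ h1.1))
  have h4 : t < sInf (E ∩ Ici t) := lt_of_le_of_ne h2.2 (fun h => ht (h ▸ h2.1))
  refine ⟨_, h1.1, _, h2.1, h3.trans h4, ?_⟩
  rw [Set.eq_empty_iff_forall_notMem]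
  rintro x ⟨⟨h5, h6⟩, hx⟩
  rcases le_total x t with h | h
  · exact absurd (le_csSup hbA ⟨hx, h⟩) (not_le.2 h5)
  · exact absurd (csInf_le hbB ⟨hx, h⟩) (not_le.2 h6)

end

theorem uniform {Ψ : ℝ → ℝ} (hΨ : Continuous Ψ) (hΨp : ∀ θ, Ψ (θ + 2 * π) = Ψ θ) {m : ℝ}
    (hm : 0 < m) : ∃ δ > 0, ∀ a b, |b - a| < δ → |Ψ b - Ψ a| < m := by
  have hp : Function.Periodic Ψ (2 * π) := hΨp
  have h1 : UniformContinuousOn Ψ (Icc (-(2 * π)) (4 * π)) :=
    isCompact_Icc.uniformContinuousOn_of_continuous hΨ.continuousOn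
  obtain ⟨δ, hδ, h2⟩ := Metric.uniformContinuousOn_iff.1 h1 m hm
  refine ⟨min δ (2 * π), lt_min hδ Real.two_pi_pos, fun a b hab => ?_⟩
  obtain ⟨k, hk, -⟩ := existsUnique_add_zsmul_mem_Ico Real.two_pi_pos a 0
  have h3 := hab.trans_le (min_le_left _ _)
  have h4 := hab.trans_le (min_le_right _ _)
  rw [abs_lt] at h4
  have h5 : Ψ a = Ψ (a + k • (2 * π)) := (hp.zsmul k a).symm
  have h6 : Ψ b = Ψ (b + k • (2 * π)) := (hp.zsmul k b).symm
  rw [h5, h6]
  have h7 := h2 (b + k • (2 * π)) ⟨by linarith [hk.1], by linarith [hk.2]⟩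
    (a + k • (2 * π)) ⟨by linarith [hk.1, Real.two_pi_pos], by linarith [hk.2, Real.two_pi_pos]⟩
    (by
      rw [Real.dist_eq, add_sub_add_right_eq_sub]
      exact h3)
  rwa [Real.dist_eq] at h7

end ArcsAux

open ArcsAux

theorem arcs {E : Set ℝ} (hE : IsClosed E) (hper : ∀ θ, θ ∈ E ↔ θ + 2 * π ∈ E)
    (hne : E.Nonempty) (hne' : E ≠ univ) {Ψ : ℝ → ℝ} (hΨ : Continuous Ψ)
    (hΨp : ∀ θ, Ψ (θ + 2 * π) = Ψ θ)
    (hΨa : ∀ a ∈ E, ∀ b ∈ E, a < b → Ioo a b ∩ E = ∅ → Ψ a ≠ Ψ b)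
    {ι : Type} (σ : ι → ℝ → ℝ) (hσE : ∀ i, ∀ θ ∈ E, σ i θ ∈ E)
    (hσσ : ∀ i, ∀ θ ∈ E, σ i (σ i θ) = θ) (hσa : ∀ i, StrictAntiOn (σ i) E)
    (hσp : ∀ i, ∀ θ ∈ E, σ i (θ + 2 * π) = σ i θ - 2 * π)
    (hσΨ : ∀ i, ∀ θ ∈ E, Ψ (σ i θ) = Ψ θ) :
    ∃ (M : ℕ) (v : ℤ → ℝ) (c : ι → ℤ) (w : ℤ → ℤ), 0 < M ∧ StrictMono v ∧
      (∀ x, v (x + M) = v x + 2 * π) ∧ (∀ x, v x ∈ E) ∧ (∀ i x, σ i (v x) = v (c i - x)) ∧
      (∀ x, w (x + M) = w x) ∧ (∀ i x, w (c i - 1 - x) = - w x) ∧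
      (∀ x, w x ≠ 0 ∨ w (x - 1) ≠ 0) ∧ (∀ x, w x ≠ 0 → Ioo (v x) (v (x + 1)) ∩ E = ∅) := by
  classical
  obtain ⟨a0, ha0, b0, hb0, hab0, harc0⟩ := exists_arc hper hE hne hne'
  set m := |Ψ b0 - Ψ a0| with hm
  have hm0 : 0 < m := abs_pos.2 (sub_ne_zero.2 (hΨa a0 ha0 b0 hb0 hab0 harc0).symm)
  obtain ⟨δ, hδ, hunif⟩ := uniform hΨ hΨp hm0
  -- maximal arcs
  set P : ℝ → ℝ → Prop := fun a b => Ioo a b ∩ E = ∅ ∧ |Ψ b - Ψ a| = m with hP
  set V : Set ℝ := {x | x ∈ E ∧ ∃ y ∈ E, (x < y ∧ P x y) ∨ (y < x ∧ P y x)} with hV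
  have hVE : ∀ x ∈ V, x ∈ E := fun x hx => hx.1
  have hlen : ∀ a b, a < b → P a b → a + δ ≤ b := by
    intro a b hab hp
    by_contra h
    have h1 := hunif a b (by
      rw [abs_of_pos (by linarith)]
      linarith)
    rw [hp.2] at h1
    exact lt_irrefl _ h1
  have hPshift : ∀ a b, P a b → P (a + 2 * π) (b + 2 * π) := by
    rintro a b ⟨h1, h2⟩
    refine ⟨?_, by rw [hΨp, hΨp]; exact h2⟩
    rw [Set.eq_empty_iff_forall_notMem] at h1 ⊢
    rintro x ⟨⟨h3, h4⟩, hx⟩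
    exact h1 (x - 2 * π) ⟨⟨by linarith, by linarith⟩, (per_sub hper x).1 hx⟩
  have hPshift' : ∀ a b, P (a + 2 * π) (b + 2 * π) → P a b := by
    rintro a b ⟨h1, h2⟩
    rw [hΨp, hΨp] at h2
    refine ⟨?_, h2⟩
    rw [Set.eq_empty_iff_forall_notMem] at h1 ⊢
    rintro x ⟨⟨h3, h4⟩, hx⟩
    exact h1 (x + 2 * π) ⟨⟨by linarith, by linarith⟩, (hper x).1 hx⟩
  have hσlt : ∀ i, ∀ x ∈ E, ∀ y ∈ E, x < y → σ i y < σ i x := fun i x hx y hy h =>
    hσa i hx hy h
  have hPσ : ∀ i, ∀ a ∈ E, ∀ b ∈ E, P a b → P (σ i b) (σ i a) := by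
    rintro i a ha b hb ⟨h1, h2⟩
    refine ⟨?_, by rw [hσΨ i a ha, hσΨ i b hb, abs_sub_comm]; exact h2⟩
    rw [Set.eq_empty_iff_forall_notMem] at h1 ⊢
    rintro x ⟨⟨h3, h4⟩, hx⟩
    refine h1 (σ i x) ⟨⟨?_, ?_⟩, hσE i x hx⟩
    · have := hσlt i x hx (σ i a) (hσE i a ha) h4
      rwa [hσσ i a ha] at this
    · have := hσlt i (σ i b) (hσE i b hb) x hx h3
      rwa [hσσ i b hb] at this
  have hVshift : ∀ x ∈ V, x + 2 * π ∈ V := by
    rintro x ⟨hx, y, hy, h⟩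
    refine ⟨(hper x).1 hx, y + 2 * π, (hper y).1 hy, ?_⟩
    rcases h with ⟨h1, h2⟩ | ⟨h1, h2⟩
    · exact Or.inl ⟨by linarith, hPshift _ _ h2⟩
    · exact Or.inr ⟨by linarith, hPshift _ _ h2⟩
  have hVshift' : ∀ x ∈ V, x - 2 * π ∈ V := by
    rintro x ⟨hx, y, hy, h⟩
    refine ⟨(per_sub hper x).1 hx, y - 2 * π, (per_sub hper y).1 hy, ?_⟩
    rcases h with ⟨h1, h2⟩ | ⟨h1, h2⟩
    · exact Or.inl ⟨by linarith, hPshift' _ _ (by rwa [sub_add_cancel, sub_add_cancel])⟩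
    · exact Or.inr ⟨by linarith, hPshift' _ _ (by rwa [sub_add_cancel, sub_add_cancel])⟩
  have hVσ : ∀ i, ∀ x ∈ V, σ i x ∈ V := by
    rintro i x ⟨hx, y, hy, h⟩
    refine ⟨hσE i x hx, σ i y, hσE i y hy, ?_⟩
    rcases h with ⟨h1, h2⟩ | ⟨h1, h2⟩
    · exact Or.inr ⟨hσlt i x hx y hy h1, hPσ i x hx y hy h2⟩
    · exact Or.inl ⟨hσlt i y hy x hx h1, hPσ i y hy x hx h2⟩
  -- local finiteness
  have hfin : ∀ x y, (V ∩ Icc x y).Finite := by
    intro x y
    have h1 := finite_of_sep (A := {x | x ∈ E ∧ ∃ y ∈ E, x < y ∧ P x y}) hδ (by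
      rintro a ⟨ha, a', ha', haa', hp⟩ b ⟨hb, -⟩ hab
      have h2 := hlen a a' haa' hp
      have h3 : a' ≤ b := by
        by_contra h
        have := Set.eq_empty_iff_forall_notMem.1 hp.1 b
        exact this ⟨⟨hab, not_le.1 h⟩, hb⟩
      linarith) x y
    have h2 := finite_of_sep (A := {x | x ∈ E ∧ ∃ y ∈ E, y < x ∧ P y x}) hδ (by
      rintro a ⟨ha, -⟩ b ⟨hb, b', hb', hbb', hp⟩ hab
      have h2 := hlen b' b hbb' hp
      have h3 : a ≤ b' := by
        by_contra h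
        have := Set.eq_empty_iff_forall_notMem.1 hp.1 a
        exact this ⟨⟨not_le.1 h, hab⟩, ha⟩
      linarith) x y
    apply (h1.union h2).subset
    rintro z ⟨⟨hz, w, hw, h⟩, hzI⟩
    rcases h with h | h
    · exact Or.inl ⟨⟨hz, w, hw, h⟩, hzI⟩
    · exact Or.inr ⟨⟨hz, w, hw, h⟩, hzI⟩
  have ha0V : a0 ∈ V := ⟨ha0, b0, hb0, Or.inl ⟨hab0, harc0, rfl⟩⟩
  have : Nonempty V := ⟨⟨a0, ha0V⟩⟩
  have : NoMaxOrder V := ⟨fun x => ⟨⟨x.1 + 2 * π, hVshift x.1 x.2⟩, by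
    rw [← Subtype.coe_lt_coe]
    simp only
    linarith [Real.two_pi_pos]⟩⟩
  have : NoMinOrder V := ⟨fun x => ⟨⟨x.1 - 2 * π, hVshift' x.1 x.2⟩, by
    rw [← Subtype.coe_lt_coe]
    simp only
    linarith [Real.two_pi_pos]⟩⟩
  let _ : LocallyFiniteOrder V := LocallyFiniteOrder.ofFiniteIcc (fun x y => by
    apply Set.Finite.of_finite_image (f := fun x : V => x.1)
    · apply (hfin x.1 y.1).subset
      rintro _ ⟨z, hz, rfl⟩
      exact ⟨z.2, hz.1, hz.2⟩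
    · exact fun x _ y _ h => Subtype.ext h)
  let _ : SuccOrder V := LinearLocallyFiniteOrder.succOrder V
  let _ : PredOrder V := LinearLocallyFiniteOrder.predOrder V
  let f : V ≃o ℤ := orderIsoIntOfLinearSuccPredArch
  set v : ℤ → ℝ := fun x => (f.symm x).1 with hv
  have hvV : ∀ x, v x ∈ V := fun x => (f.symm x).2
  have hvm : StrictMono v := fun x y h => by
    have := f.symm.strictMono h
    exact this
  have hsurj : ∀ z ∈ V, ∃ x, v x = z := fun z hz => ⟨f ⟨z, hz⟩, by simp [hv]⟩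
  -- translation
  have hT : ∀ x, ∃ y, v y = v x + 2 * π := fun x => hsurj _ (hVshift _ (hvV x))
  choose T hT using hT
  have hTm : StrictMono T := by
    intro x y h
    rw [← hvm.lt_iff_lt, hT, hT]
    linarith [hvm h]
  have hTs : Function.Surjective T := by
    intro y
    obtain ⟨x, hx⟩ := hsurj _ (hVshift' _ (hvV y))
    refine ⟨x, hvm.injective ?_⟩
    rw [hT, hx]
    ring
  have hT0 : 0 < T 0 := by
    rw [← hvm.lt_iff_lt, hT]
    linarith [Real.two_pi_pos]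
  have hTx : ∀ x, T x = x + (T 0).toNat := by
    intro x
    rw [int_mono hTm hTs x, Int.toNat_of_nonneg hT0.le]
    ring
  have hvT : ∀ x, v (x + (T 0).toNat) = v x + 2 * π := by
    intro x
    rw [← hTx, hT]
  -- reflections
  have hR : ∀ i x, ∃ y, v y = σ i (v x) := fun i x => hsurj _ (hVσ i _ (hvV x))
  choose R hR using hR
  have hRa : ∀ i, StrictAnti (R i) := by
    intro i x y h
    rw [← hvm.lt_iff_lt, hR, hR]
    exact hσlt i _ (hVE _ (hvV x)) _ (hVE _ (hvV y)) (hvm h)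
  have hRs : ∀ i, Function.Surjective (R i) := by
    intro i y
    obtain ⟨x, hx⟩ := hsurj _ (hVσ i _ (hvV y))
    refine ⟨x, hvm.injective ?_⟩
    rw [hR, hx, hσσ i _ (hVE _ (hvV y))]
  have hRx : ∀ i x, σ i (v x) = v (R i 0 - x) := by
    intro i x
    rw [← hR, int_anti (hRa i) (hRs i) x]
  -- signs
  have hsame : ∀ x, P (v (x + (T 0).toNat)) (v (x + (T 0).toNat + 1)) ↔ P (v x) (v (x + 1)) := by
    intro x
    have e : x + ((T 0).toNat : ℤ) + 1 = (x + 1) + (T 0).toNat := by ring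
    rw [e, hvT, hvT]
    exact ⟨hPshift' _ _, hPshift _ _⟩
  have hrefl : ∀ i x, P (v (R i 0 - 1 - x)) (v (R i 0 - 1 - x + 1)) ↔ P (v x) (v (x + 1)) := by
    intro i x
    have e1 : R i 0 - 1 - x = R i 0 - (x + 1) := by ring
    have e2 : R i 0 - 1 - x + 1 = R i 0 - x := by ring
    rw [e2, e1, ← hRx, ← hRx]
    have h1 := hVE _ (hvV x)
    have h2 := hVE _ (hvV (x + 1))
    constructor
    · intro h
      have := hPσ i _ (hσE i _ h2) _ (hσE i _ h1) h
      rwa [hσσ i _ h1, hσσ i _ h2] at this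
    · exact hPσ i _ h1 _ h2
  refine ⟨(T 0).toNat, v, fun i => R i 0,
    fun x => if P (v x) (v (x + 1)) then (if Ψ (v x) < Ψ (v (x + 1)) then 1 else -1) else 0,
    by omega, hvm, hvT, fun x => hVE _ (hvV x), hRx, ?_, ?_, ?_, ?_⟩
  · intro x
    simp only [hsame]
    have e : x + ((T 0).toNat : ℤ) + 1 = (x + 1) + (T 0).toNat := by ring
    rw [e, hvT, hvT, hΨp, hΨp]
  · intro i x
    simp only [hrefl]
    have e1 : R i 0 - 1 - x = R i 0 - (x + 1) := by ring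
    have e2 : R i 0 - 1 - x + 1 = R i 0 - x := by ring
    rw [e2, e1, ← hRx, ← hRx, hσΨ i _ (hVE _ (hvV x)), hσΨ i _ (hVE _ (hvV (x + 1)))]
    split_ifs with h1 h2 h3 h4
    · linarith
    · rfl
    · norm_num
    · exfalso
      have h5 : Ψ (v x) = Ψ (v (x + 1)) := le_antisymm (not_lt.1 h2) (not_lt.1 h4)
      have h6 := h1.2
      rw [h5, sub_self, abs_zero] at h6
      linarith
    · norm_num
  · intro x
    obtain ⟨hx, y, hy, h⟩ := hvV x
    rcases h with ⟨h1, h2⟩ | ⟨h1, h2⟩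
    · left
      have hyV : y ∈ V := ⟨hy, v x, hx, Or.inr ⟨h1, h2⟩⟩
      obtain ⟨z, rfl⟩ := hsurj y hyV
      have hxz : x < z := hvm.lt_iff_lt.1 h1
      have hz : z = x + 1 := by
        by_contra hne
        have h3 : x + 1 < z := by omega
        exact Set.eq_empty_iff_forall_notMem.1 h2.1 (v (x + 1))
          ⟨⟨hvm (by omega), hvm h3⟩, hVE _ (hvV _)⟩
      subst hz
      beta_reduce
      rw [if_pos h2]
      split_ifs <;> norm_num
    · right
      have hyV : y ∈ V := ⟨hy, v x, hx, Or.inl ⟨h1, h2⟩⟩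
      obtain ⟨z, rfl⟩ := hsurj y hyV
      have hxz : z < x := hvm.lt_iff_lt.1 h1
      have hz : x = z + 1 := by
        by_contra hne
        have h3 : z + 1 < x := by omega
        exact Set.eq_empty_iff_forall_notMem.1 h2.1 (v (z + 1))
          ⟨⟨hvm (by omega), hvm h3⟩, hVE _ (hvV _)⟩
      subst hz
      simp only [add_sub_cancel_right]
      rw [if_pos h2]
      split_ifs <;> norm_num
  · intro x hx
    by_contra h
    apply hx
    beta_reduce
    rw [if_neg]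
    exact fun h' => h h'.1

end Pool.Agent.H45.XR
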