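import Mathlib
import Pool.Agent.H45.XR.Defs

set_option autoImplicit false

/-!
Project XR, module P2: a hexagon bounds the width of the body.
-/

open MeasureTheory Set Filter Topology
open scoped Real ENNReal

namespace Pool.Agent.H45.XR

namespace P2Aux

/-- The determinant of two vectors. -/
noncomputable def cr (z w : ℂ) : ℝ := z.re * w.im - z.im * w.re

theorem cr_e (φ : ℝ) (z : ℂ) : cr (e φ) z = tc φ z := by
  simp [cr, tc]

theorem cr_mul_left (s : ℝ) (z w : ℂ) : cr (s * z) w = s * cr z w := by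
  simp [cr]; ring

theorem cr_antisymm (z w : ℂ) : cr z w = - cr w z := by
  simp [cr]; ring

theorem continuous_cr (u v : ℂ) : Continuous fun z : ℂ => cr u (z - v) := by
  unfold cr
  fun_prop

theorem tri_mem {C : Set ℂ} (hC : Convex ℝ C) {u v w z : ℂ} (hu : u ∈ C) (hv : v ∈ C)
    (hw : w ∈ C) (h1 : 0 < cr (v - u) (z - u)) (h2 : 0 < cr (w - v) (z - v))
    (h3 : 0 < cr (u - w) (z - w)) : z ∈ C := by
  set α := cr (w - v) (z - v) with hα
  set β := cr (u - w) (z - w) with hβ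
  set γ := cr (v - u) (z - u) with hγ
  have hD : 0 < α + β + γ := by linarith
  have e1 : α + β + γ = cr (v - u) (w - u) := by
    simp only [hα, hβ, hγ, cr, Complex.sub_re, Complex.sub_im]
    ring
  have key : (α + β + γ) • z = α • u + β • v + γ • w := by
    apply Complex.ext
    · simp only [hα, hβ, hγ, cr, Complex.sub_re, Complex.sub_im, Complex.add_re,
        Complex.real_smul, Complex.mul_re, Complex.ofReal_re, Complex.ofReal_im]
      ring
    · simp only [hα, hβ, hγ, cr, Complex.sub_re, Complex.sub_im, Complex.add_im,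
        Complex.real_smul, Complex.mul_im, Complex.ofReal_re, Complex.ofReal_im]
      ring
  have hz : z = (α / (α + β + γ)) • u + (β / (α + β + γ)) • v + (γ / (α + β + γ)) • w := by
    have : z = (α + β + γ)⁻¹ • ((α + β + γ) • z) := by
      rw [smul_smul, inv_mul_cancel₀ hD.ne', one_smul]
    rw [this, key, smul_add, smul_add, smul_smul, smul_smul, smul_smul]
    simp only [div_eq_inv_mul]
  have h4 : (β / (β + γ)) • v + (γ / (β + γ)) • w ∈ C :=
    hC hv hw (by positivity) (by positivity) (by field_simp)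
  have h5 := hC hu h4 (a := α / (α + β + γ)) (b := (β + γ) / (α + β + γ)) (by positivity)
    (by positivity) (by field_simp; ring)
  convert h5 using 1
  rw [hz, smul_add, smul_smul, smul_smul, add_assoc]
  congr 2
  · congr 1
    field_simp
  · congr 1
    field_simp

theorem tri_interior {C : Set ℂ} (hC : Convex ℝ C) {u v w p : ℂ} (hu : u ∈ C) (hv : v ∈ C)
    (hw : w ∈ C) (h1 : 0 < cr (v - u) (p - u)) (h2 : 0 < cr (w - v) (p - v))
    (h3 : 0 < cr (u - w) (p - w)) : p ∈ interior C := by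
  rw [mem_interior]
  refine ⟨{z | 0 < cr (v - u) (z - u)} ∩ {z | 0 < cr (w - v) (z - v)} ∩
    {z | 0 < cr (u - w) (z - w)}, ?_, ?_, ⟨⟨h1, h2⟩, h3⟩⟩
  · rintro z ⟨⟨h1, h2⟩, h3⟩
    exact tri_mem hC hu hv hw h1 h2 h3
  · exact ((isOpen_lt continuous_const (continuous_cr _ _)).inter
      (isOpen_lt continuous_const (continuous_cr _ _))).inter
      (isOpen_lt continuous_const (continuous_cr _ _))

/-- Expression of the determinant in two of the coordinates. -/
theorem cr_coord (φ ψ : ℝ) (z w : ℂ) :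
    Real.sin (ψ - φ) * cr z w = tc φ z * tc ψ w - tc ψ z * tc φ w := by
  rw [Real.sin_sub]
  simp only [cr, tc]
  ring

theorem cr_sub_self (z w : ℂ) : cr (z - w) (z - w) = 0 := by
  simp only [cr]; ring

theorem norm_mul_e (s φ : ℝ) : ‖(s : ℂ) * e φ‖ = |s| := by
  rw [norm_mul, norm_e, mul_one, Complex.norm_real, Real.norm_eq_abs]

/-- The estimate along a chord. -/
theorem chord {C : Set ℂ} (hC : Convex ℝ C) {φ ψ : ℝ} (h0 : φ < ψ) (h1 : ψ < φ + π) {R : ℝ}
    (hR : ∀ z ∈ C, ∀ w ∈ C, ‖z - w‖ ≤ R) {a u v : ℂ} (ha : a ∈ C) (hu : u ∈ C) (hv : v ∈ C)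
    (hau : tc ψ u ≤ tc ψ a) (hav : tc ψ a ≤ tc ψ v) {t : ℝ} (htu : t ≤ tc φ u)
    (htv : t ≤ tc φ v) : t - tc φ a ≤ Real.sin (ψ - φ) * R := by
  have hs : 0 < Real.sin (ψ - φ) := Real.sin_pos_of_pos_of_lt_pi (by linarith) (by linarith)
  -- the point of the chord
  obtain ⟨z, hz, hzt, hz0⟩ : ∃ z ∈ C, tc ψ z = tc ψ a ∧ t ≤ tc φ z := by
    by_cases h : tc ψ u = tc ψ v
    · exact ⟨u, hu, le_antisymm hau (h ▸ hav), htu⟩
    · have hlt : tc ψ u < tc ψ v := lt_of_le_of_ne (hau.trans hav) h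
      have hpos : 0 < tc ψ v - tc ψ u := by linarith
      set l := (tc ψ a - tc ψ u) / (tc ψ v - tc ψ u) with hl
      have hl0 : 0 ≤ l := div_nonneg (by linarith) hpos.le
      have hl1 : l ≤ 1 := by
        rw [hl, div_le_one hpos]
        linarith
      refine ⟨(1 - l) • u + l • v, hC hu hv (by linarith) hl0 (by ring), ?_, ?_⟩
      · rw [tc_add, tc_smul, tc_smul, hl]
        field_simp
        ring
      · rw [tc_add, tc_smul, tc_smul]
        nlinarith
  have h2 := eq_add_of_tc_eq hzt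
  have h3 := hR z hz a ha
  have e1 : z - a = ((yc ψ z - yc ψ a : ℝ) : ℂ) * e ψ := by
    rw [sub_eq_iff_eq_add, add_comm]
    exact h2
  rw [e1, norm_mul_e] at h3
  have h4 : tc φ z - tc φ a = (yc ψ z - yc ψ a) * Real.sin (ψ - φ) := by
    rw [← tc_sub, e1, tc_mul, tc_e]
  have h5 : yc ψ z - yc ψ a ≤ R := (le_abs_self _).trans h3
  nlinarith

theorem half_bound {C : Set ℂ} (hC : Convex ℝ C) {φ : Fin 3 → ℝ} {p : Fin 6 → ℂ}
    (h01 : φ 0 < φ 1) (h12 : φ 1 < φ 2) (h20 : φ 2 < φ 0 + π) (hp : Hex C φ p) {R : ℝ}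
    (hR : ∀ z ∈ C, ∀ w ∈ C, ‖z - w‖ ≤ R) {a : ℂ} (ha : a ∈ C)
    (hamin : ∀ z ∈ C, tc (φ 0) a ≤ tc (φ 0) z) :
    tc (φ 0) (p 2) - tc (φ 0) a ≤
      (Real.sin (φ 1 - φ 0) + Real.sin (φ 2 - φ 0)) * R := by
  have hs01 : 0 < Real.sin (φ 1 - φ 0) :=
    Real.sin_pos_of_pos_of_lt_pi (by linarith) (by linarith)
  have hs02 : 0 < Real.sin (φ 2 - φ 0) :=
    Real.sin_pos_of_pos_of_lt_pi (by linarith) (by linarith)
  have hR0 : 0 ≤ R := (norm_nonneg _).trans (hR a ha a ha)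
  obtain ⟨s0, hs0, r0a⟩ := hp.r0a
  obtain ⟨s0', hs0', r0b⟩ := hp.r0b
  obtain ⟨s1, hs1, r1a⟩ := hp.r1a
  obtain ⟨s1', hs1', r1b⟩ := hp.r1b
  obtain ⟨s2, hs2, r2a⟩ := hp.r2a
  obtain ⟨s2', hs2', r2b⟩ := hp.r2b
  obtain ⟨t01, t02, t03⟩ := hp.t0
  obtain ⟨t11, t12, t13⟩ := hp.t1
  obtain ⟨t21, t22, t23⟩ := hp.t2
  have q0a : tc (φ 0) (p 1) = tc (φ 0) (p 5) := by rw [r0a, tc_add, tc_mul, tc_e_self]; ring
  have q0b : tc (φ 0) (p 2) = tc (φ 0) (p 4) := by rw [r0b, tc_add, tc_mul, tc_e_self]; ring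
  have q1a : tc (φ 1) (p 2) = tc (φ 1) (p 0) := by rw [r1a, tc_add, tc_mul, tc_e_self]; ring
  have q1b : tc (φ 1) (p 3) = tc (φ 1) (p 5) := by rw [r1b, tc_add, tc_mul, tc_e_self]; ring
  have q2a : tc (φ 2) (p 3) = tc (φ 2) (p 1) := by rw [r2a, tc_add, tc_mul, tc_e_self]; ring
  have q2b : tc (φ 2) (p 4) = tc (φ 2) (p 0) := by rw [r2b, tc_add, tc_mul, tc_e_self]; ring
  have hmin0 := hamin _ (hp.mem 0)
  -- first case
  have c1 : tc (φ 2) (p 1) ≤ tc (φ 2) a := by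
    by_contra h
    rw [not_le] at h
    apply hp.nint 1
    apply tri_interior hC (hp.mem 0) ha (hp.mem 3)
    · -- det (a - p0, p1 - p0)
      have e1 := cr_coord (φ 0) (φ 2) (a - p 0) (p 1 - p 0)
      simp only [tc_sub] at e1
      have : 0 < Real.sin (φ 2 - φ 0) * cr (a - p 0) (p 1 - p 0) := by
        rw [e1]
        nlinarith [mul_nonneg (sub_nonneg.2 hmin0) (sub_pos.2 t22).le,
          mul_pos (sub_pos.2 t01) (sub_pos.2 (h.trans t22))]
      exact (mul_pos_iff_of_pos_left hs02).1 this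
    · -- det (p3 - a, p1 - a)
      have e1 : cr (p 3 - a) (p 1 - a) = s2 * (tc (φ 2) (p 1) - tc (φ 2) a) := by
        rw [← tc_sub, ← cr_e, r2a]
        simp only [cr, Complex.sub_re, Complex.sub_im, Complex.add_re, Complex.add_im,
          Complex.mul_re, Complex.mul_im, Complex.ofReal_re, Complex.ofReal_im]
        ring
      rw [e1]
      exact mul_pos hs2 (by linarith)
    · -- det (p0 - p3, p1 - p3)
      have e1 : cr (p 0 - p 3) (p 1 - p 3) = s2 * (tc (φ 2) (p 0) - tc (φ 2) (p 1)) := by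
        rw [← tc_sub, ← cr_e, r2a]
        simp only [cr, Complex.sub_re, Complex.sub_im, Complex.add_re, Complex.add_im,
          Complex.mul_re, Complex.mul_im, Complex.ofReal_re, Complex.ofReal_im]
        ring
      rw [e1]
      exact mul_pos hs2 (by linarith)
  have c2 : tc (φ 1) a ≤ tc (φ 1) (p 5) := by
    by_contra h
    rw [not_le] at h
    apply hp.nint 5
    apply tri_interior hC ha (hp.mem 0) (hp.mem 3)
    · have e1 := cr_coord (φ 0) (φ 1) (p 0 - a) (p 5 - a)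
      simp only [tc_sub] at e1
      have : 0 < Real.sin (φ 1 - φ 0) * cr (p 0 - a) (p 5 - a) := by
        rw [e1, ← q0a]
        nlinarith [mul_nonneg (sub_nonneg.2 hmin0) (sub_pos.2 t12).le,
          mul_pos (sub_pos.2 t01) (sub_pos.2 (t12.trans h))]
      exact (mul_pos_iff_of_pos_left hs01).1 this
    · have e1 : cr (p 3 - p 0) (p 5 - p 0) = s1' * (tc (φ 1) (p 5) - tc (φ 1) (p 0)) := by
        rw [← tc_sub, ← cr_e, r1b]
        simp only [cr, Complex.sub_re, Complex.sub_im, Complex.add_re, Complex.add_im,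
          Complex.mul_re, Complex.mul_im, Complex.ofReal_re, Complex.ofReal_im]
        ring
      rw [e1]
      exact mul_pos hs1' (by linarith)
    · have e1 : cr (a - p 3) (p 5 - p 3) = s1' * (tc (φ 1) a - tc (φ 1) (p 5)) := by
        rw [← tc_sub, ← cr_e, r1b]
        simp only [cr, Complex.sub_re, Complex.sub_im, Complex.add_re, Complex.add_im,
          Complex.mul_re, Complex.mul_im, Complex.ofReal_re, Complex.ofReal_im]
        ring
      rw [e1]
      exact mul_pos hs1' (by linarith)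
  by_cases hA : tc (φ 2) a ≤ tc (φ 2) (p 0)
  · have := chord hC (h01.trans h12) h20 hR ha (hp.mem 3) (hp.mem 4)
      (by rw [q2a]; exact c1) (by rw [q2b]; exact hA) (t := tc (φ 0) (p 2)) t03.le q0b.le
    nlinarith [mul_nonneg hs01.le hR0]
  · by_cases hB : tc (φ 1) (p 0) ≤ tc (φ 1) a
    · have := chord hC h01 (by linarith) hR ha (hp.mem 2) (hp.mem 3)
        (by rw [q1a]; exact hB) (by rw [q1b]; exact c2) (t := tc (φ 0) (p 2)) le_rfl t03.le
      nlinarith [mul_nonneg hs02.le hR0]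
    · exfalso
      rw [not_le] at hA hB
      apply hp.nint 0
      apply tri_interior hC ha (hp.mem 2) (hp.mem 4)
      · have e1 : cr (p 2 - a) (p 0 - a) = s1 * (tc (φ 1) (p 0) - tc (φ 1) a) := by
          rw [← tc_sub, ← cr_e, r1a]
          simp only [cr, Complex.sub_re, Complex.sub_im, Complex.add_re, Complex.add_im,
            Complex.mul_re, Complex.mul_im, Complex.ofReal_re, Complex.ofReal_im]
          ring
        rw [e1]
        exact mul_pos hs1 (by linarith)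
      · have e1 : cr (p 4 - p 2) (p 0 - p 2) = s0' * (tc (φ 0) (p 4) - tc (φ 0) (p 0)) := by
          rw [← tc_sub, ← cr_e, r0b]
          simp only [cr, Complex.sub_re, Complex.sub_im, Complex.add_re, Complex.add_im,
            Complex.mul_re, Complex.mul_im, Complex.ofReal_re, Complex.ofReal_im]
          ring
        rw [e1]
        exact mul_pos hs0' (by linarith)
      · have e1 : cr (a - p 4) (p 0 - p 4) = s2' * (tc (φ 2) a - tc (φ 2) (p 0)) := by
          rw [← tc_sub, ← cr_e, r2b]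
          simp only [cr, Complex.sub_re, Complex.sub_im, Complex.add_re, Complex.add_im,
            Complex.mul_re, Complex.mul_im, Complex.ofReal_re, Complex.ofReal_im]
          ring
        rw [e1]
        exact mul_pos hs2' (by linarith)

theorem tc_neg (φ : ℝ) (z : ℂ) : tc φ (-z) = - tc φ z := by
  simp [tc]; ring

theorem hex_neg {C : Set ℂ} {φ : Fin 3 → ℝ} {p : Fin 6 → ℂ} (hp : Hex C φ p) :
    Hex (-C) φ ![-p 3, -p 4, -p 5, -p 0, -p 1, -p 2] := by
  obtain ⟨s0, hs0, r0a⟩ := hp.r0a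
  obtain ⟨s0', hs0', r0b⟩ := hp.r0b
  obtain ⟨s1, hs1, r1a⟩ := hp.r1a
  obtain ⟨s1', hs1', r1b⟩ := hp.r1b
  obtain ⟨s2, hs2, r2a⟩ := hp.r2a
  obtain ⟨s2', hs2', r2b⟩ := hp.r2b
  obtain ⟨t01, t02, t03⟩ := hp.t0
  obtain ⟨t11, t12, t13⟩ := hp.t1
  obtain ⟨t21, t22, t23⟩ := hp.t2
  have q0a : tc (φ 0) (p 1) = tc (φ 0) (p 5) := by rw [r0a, tc_add, tc_mul, tc_e_self]; ring
  have q0b : tc (φ 0) (p 2) = tc (φ 0) (p 4) := by rw [r0b, tc_add, tc_mul, tc_e_self]; ring
  have q1a : tc (φ 1) (p 2) = tc (φ 1) (p 0) := by rw [r1a, tc_add, tc_mul, tc_e_self]; ring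
  have q1b : tc (φ 1) (p 3) = tc (φ 1) (p 5) := by rw [r1b, tc_add, tc_mul, tc_e_self]; ring
  have q2a : tc (φ 2) (p 3) = tc (φ 2) (p 1) := by rw [r2a, tc_add, tc_mul, tc_e_self]; ring
  have q2b : tc (φ 2) (p 4) = tc (φ 2) (p 0) := by rw [r2b, tc_add, tc_mul, tc_e_self]; ring
  have hmem := hp.mem
  have hnint : ∀ x, -(-p x) ∉ interior C := fun x => by rw [neg_neg]; exact hp.nint x
  refine ⟨?_, ?_, ⟨s0', hs0', ?_⟩, ⟨s0, hs0, ?_⟩, ⟨s1', hs1', ?_⟩, ⟨s1, hs1, ?_⟩, ⟨s2', hs2', ?_⟩,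
    ⟨s2, hs2, ?_⟩, ⟨?_, ?_, ?_⟩, ⟨?_, ?_, ?_⟩, ⟨?_, ?_, ?_⟩⟩
  · intro x
    rw [Set.mem_neg]
    fin_cases x <;> simp [hmem]
  · intro x
    rw [show interior (-C) = -interior C from
      ((Homeomorph.neg ℂ).preimage_interior C).symm, Set.mem_neg]
    fin_cases x <;> simpa using hp.nint _
  · change -p 4 = -p 2 + _
    rw [r0b]; ring
  · change -p 5 = -p 1 + _
    rw [r0a]; ring
  · change -p 5 = -p 3 + _
    rw [r1b]; ring
  · change -p 0 = -p 2 + _
    rw [r1a]; ring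
  · change -p 0 = -p 4 + _
    rw [r2b]; ring
  · change -p 1 = -p 3 + _
    rw [r2a]; ring
  · change tc _ (-p 3) < tc _ (-p 4)
    rw [tc_neg, tc_neg]; linarith
  · change tc _ (-p 4) < tc _ (-p 5)
    rw [tc_neg, tc_neg]; linarith
  · change tc _ (-p 5) < tc _ (-p 0)
    rw [tc_neg, tc_neg]; linarith
  · change tc _ (-p 4) < tc _ (-p 3)
    rw [tc_neg, tc_neg]; linarith
  · change tc _ (-p 3) < tc _ (-p 2)
    rw [tc_neg, tc_neg]; linarith
  · change tc _ (-p 2) < tc _ (-p 1)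
    rw [tc_neg, tc_neg]; linarith
  · change tc _ (-p 5) < tc _ (-p 4)
    rw [tc_neg, tc_neg]; linarith
  · change tc _ (-p 4) < tc _ (-p 3)
    rw [tc_neg, tc_neg]; linarith
  · change tc _ (-p 3) < tc _ (-p 2)
    rw [tc_neg, tc_neg]; linarith

end P2Aux

open P2Aux

/-- P2 -/
theorem width_bound {C : Set ℂ} (hC : Convex ℝ C) {φ : Fin 3 → ℝ} {p : Fin 6 → ℂ}
    (h01 : φ 0 < φ 1) (h12 : φ 1 < φ 2) (h20 : φ 2 < φ 0 + π) (hp : Hex C φ p) {R : ℝ}
    (hR : ∀ z ∈ C, ∀ w ∈ C, ‖z - w‖ ≤ R) {a b : ℂ} (ha : a ∈ C) (hb : b ∈ C)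
    (hamin : ∀ z ∈ C, tc (φ 0) a ≤ tc (φ 0) z) (hbmax : ∀ z ∈ C, tc (φ 0) z ≤ tc (φ 0) b) :
    tc (φ 0) b - tc (φ 0) a ≤ 2 * (Real.sin (φ 1 - φ 0) + Real.sin (φ 2 - φ 0)) * R := by
  have h1 := half_bound hC h01 h12 h20 hp hR ha hamin
  have h2 := half_bound (C := -C) hC.neg h01 h12 h20 (hex_neg hp) (R := R) (fun z hz w hw => by
    have := hR (-w) hw (-z) hz
    rwa [show -w - -z = z - w by ring] at this) (a := -b) (by simpa using hb) (fun z hz => by
      have := hbmax (-z) hz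
      rw [tc_neg] at this ⊢
      linarith)
  change tc (φ 0) (-p 5) - tc (φ 0) (-b) ≤ _ at h2
  rw [tc_neg, tc_neg] at h2
  obtain ⟨s0, hs0, r0a⟩ := hp.r0a
  have q0a : tc (φ 0) (p 1) = tc (φ 0) (p 5) := by rw [r0a, tc_add, tc_mul, tc_e_self]; ring
  have h3 := hp.t0.2.1
  linarith

end Pool.Agent.H45.XR
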